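import Pool.Agent.H68.Bp3

namespace Pool.Agent.Results.MP_330ad9_al.Closed

open Pool.Agent.H68.Bp

theorem result {B W : Type*} [Group W] {M : CoxeterMatrix B} (cs : CoxeterSystem M W) (w : W)
    (J K : Set B) (hJ : BP cs w J) (hK : BP cs w K) : BP cs w (J ∩ K) ∧ BP cs w (J ∪ K) :=
  ⟨bp_inter hJ hK, bp_union hJ hK⟩

end Pool.Agent.Results.MP_330ad9_al.Closed
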